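import Pool.Agent.Y481.Up0
import Pool.Agent.H756R3.J.Cont
import Pool.Agent.H105R3.JSanCurl
import Pool.Agent.H309R4.Jones.SanU
import Pool.Agent.H550R3.Jones.SanSkein699

/-!
# An optimal upper bound for the growth of the Kashaev invariants of closed 3-braids with their axes

For arbitrary integers `a_1, b_1, …, a_k, b_k` and `p`, `k ≥ 1`, the link is the closure of the 3-braid
`(s_1 s_2)^{3 p} s_1^{a_1} s_2^{b_1} ⋯ s_1^{a_k} s_2^{b_k}` together with its braid axis, written as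
the closure of a braid on four strands: strand number `0` runs once around the other three strands
(this is the axis) and the last three strands carry the braid.  (Every 3-braid has this form.)

The invariants are defined from the R-matrix of `U_q(sl_2)`, with `v = q^{1/2}` and
`{k} = v^k - v^{-k}`.  The `N`-coloured Jones polynomial `cjones N n w v` of the closure of a braid
word `w` on `n + 1` strands is the entry at the highest weight vector of the partial quantum trace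
(over all strands but the first one) of the operator of `w` on the tensor power of the
`N`-dimensional irreducible representation.  The crossings carry the framing correction and the
unknot has value `1`.  The Kashaev invariant is its value at `v = exp (π i / N)`, that is
`q = exp (2 π i / N)`.
-/

set_option autoImplicit false

namespace Pool.Agent.Y481.Arc.ThreeBraidAxisBound

open Finset Filter Topology

/-! ### The coloured Jones polynomial -/

/-- `{n} = v^n - v^{-n}` -/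
noncomputable def br (v : ℂ) (n : ℤ) : ℂ := v ^ n - v ^ (-n)

/-- `{n}! = {1} {2} ⋯ {n}` -/
noncomputable def brf (v : ℂ) (n : ℕ) : ℂ := ∏ j ∈ range n, br v ((j : ℤ) + 1)

/-- The positive crossing: the R-matrix of `U_q(sl_2)` on `V_N ⊗ V_N`, `V_N` with basis
`e_0, …, e_{N-1}`, times the framing factor `v^{-(N^2-1)/2}`; `crossP N v p q` is the coefficient
of `e_{p.1} ⊗ e_{p.2}` in the image of `e_{q.1} ⊗ e_{q.2}`:
`e_i ⊗ e_j ↦ ∑_n v^{-(N-1)(1+i+j) + 2(i-n)(j+n) + n(n-1)/2}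
({j+n}! / ({j}! {n}!)) ∏_{t<n} {N-i+t} e_{j+n} ⊗ e_{i-n}`. -/
noncomputable def crossP (N : ℕ) (v : ℂ) : Matrix (Fin N × Fin N) (Fin N × Fin N) ℂ :=
  fun p q => if (p.1 : ℕ) + p.2 = q.1 + q.2 ∧ (q.2 : ℕ) ≤ p.1 then
    v ^ (-((N : ℤ) - 1) * (1 + (q.1 : ℕ) + (q.2 : ℕ)) + 2 * (p.1 : ℕ) * (p.2 : ℕ)) *
      v ^ (((p.1 : ℕ) - q.2) * ((p.1 : ℕ) - q.2 - 1) / 2) *
      (brf v p.1 / (brf v q.2 * brf v ((p.1 : ℕ) - q.2))) *
      ∏ t ∈ range ((p.1 : ℕ) - q.2), br v ((N : ℤ) - (q.1 : ℕ) + t)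
    else 0

/-- The negative crossing, inverse of `crossP N v`:
`e_i ⊗ e_j ↦ ∑_n (-1)^n v^{(N-1)(1+i+j) - 2ij - n(n-1)/2}
({i+n}! / ({i}! {n}!)) ∏_{t<n} {N-j+t} e_{j-n} ⊗ e_{i+n}`. -/
noncomputable def crossN (N : ℕ) (v : ℂ) : Matrix (Fin N × Fin N) (Fin N × Fin N) ℂ :=
  fun p q => if (p.1 : ℕ) + p.2 = q.1 + q.2 ∧ (q.1 : ℕ) ≤ p.2 then
    (-1) ^ ((p.2 : ℕ) - q.1) *
      v ^ (((N : ℤ) - 1) * (1 + (q.1 : ℕ) + (q.2 : ℕ)) - 2 * (q.1 : ℕ) * (q.2 : ℕ)) /
      v ^ (((p.2 : ℕ) - q.1) * ((p.2 : ℕ) - q.1 - 1) / 2) *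
      (brf v p.2 / (brf v q.1 * brf v ((p.2 : ℕ) - q.1))) *
      ∏ t ∈ range ((p.2 : ℕ) - q.1), br v ((N : ℤ) - (q.2 : ℕ) + t)
    else 0

/-- The braid generator `s_k` on `n` strands (it acts on the strands number `k` and `k + 1`,
counted from `0`) by the crossing matrix `A`. -/
def gen {ι : Type} [DecidableEq ι] (A : Matrix (ι × ι) (ι × ι) ℂ) (n k : ℕ) :
    Matrix (Fin n → ι) (Fin n → ι) ℂ :=
  fun s t => if h : k + 1 < n then
    (if ∀ j : Fin n, (j : ℕ) ≠ k → (j : ℕ) ≠ k + 1 → s j = t j then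
      A (s ⟨k, by omega⟩, s ⟨k + 1, h⟩) (t ⟨k, by omega⟩, t ⟨k + 1, h⟩) else 0)
    else (if s = t then 1 else 0)

/-- The operator of a braid word on `n` strands: the letter `(k, true)` is `s_k`, the letter
`(k, false)` is its inverse; `P` and `Q` are the matrices of the two crossings. -/
def rep {ι : Type} [Fintype ι] [DecidableEq ι] (P Q : Matrix (ι × ι) (ι × ι) ℂ) (n : ℕ)
    (w : List (ℕ × Bool)) : Matrix (Fin n → ι) (Fin n → ι) ℂ :=
  (w.map fun g => gen (if g.2 then P else Q) n g.1).prod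

/-- The partial trace over all strands but the first one, with weights `k`; `n + 1` strands. -/
def tail {ι : Type} [Fintype ι] (k : ι → ℂ) (n : ℕ)
    (A : Matrix (Fin (n + 1) → ι) (Fin (n + 1) → ι) ℂ) : Matrix ι ι ℂ :=
  fun i j => ∑ s : Fin n → ι, (∏ x, k (s x)) * A (Fin.cons i s) (Fin.cons j s)

/-- The `N`-coloured Jones polynomial (unknot `= 1`) of the closure of the braid word `w` on
`n + 1` strands, at `q = v^2`: the entry at the highest weight vector `e_0` of the partial quantum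
trace, with the weights `v^{N-1-2x}` of `K`. -/
noncomputable def cjones (N n : ℕ) (w : List (ℕ × Bool)) (v : ℂ) : ℂ :=
  if h : 0 < N then
    tail (fun x : Fin N => v ^ ((N : ℤ) - 1 - 2 * (x : ℕ))) n
      (rep (crossP N v) (crossN N v) (n + 1) w) ⟨0, h⟩ ⟨0, h⟩ else 0

/-! ### The links -/

/-- The braid axis: strand `0` runs once around the strands `1`, `2` and `3`. -/
def axisWord : List (ℕ × Bool) :=
  [(0, true), (1, true), (2, true), (2, true), (1, true), (0, true)]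

/-- `s_k^a`, `a` an integer -/
def twist (k : ℕ) (a : ℤ) : List (ℕ × Bool) := List.replicate a.natAbs (k, decide (0 ≤ a))

/-- `p` full twists `(s_1 s_2)^{3 p}` on the strands `1`, `2` and `3`, `p` an integer (the full twist
is central, so that `(s_1^{-1} s_2^{-1})^3` is its inverse). -/
def fullTwists (p : ℤ) : List (ℕ × Bool) :=
  (List.replicate p.natAbs [(1, decide (0 ≤ p)), (2, decide (0 ≤ p)), (1, decide (0 ≤ p)),
    (2, decide (0 ≤ p)), (1, decide (0 ≤ p)), (2, decide (0 ≤ p))]).flatten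

/-- The word on four strands of the link: the axis, and then the braid
`(s_1 s_2)^{3 p} s_1^{a_1} s_2^{b_1} ⋯ s_1^{a_k} s_2^{b_k}` on the strands `1`, `2` and `3`; the list
is `[(a_1, b_1), …, (a_k, b_k)]`. -/
def linkWord (p : ℤ) (l : List (ℤ × ℤ)) : List (ℕ × Bool) :=
  axisWord ++ fullTwists p ++ (l.map fun q => twist 1 q.1 ++ twist 2 q.2).flatten

/-- `v_N = exp (π i / N)`, so that `q = v_N^2 = exp (2 π i / N)`. -/
noncomputable def root (N : ℕ) : ℂ := Complex.exp (Real.pi * Complex.I / N)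

/-- The Kashaev invariant of the link. -/
noncomputable def kashaev (p : ℤ) (l : List (ℤ × ℤ)) (N : ℕ) : ℂ :=
  cjones N 3 (linkWord p l) (root N)

/-- Lobachevsky's function `Λ(x) = -∫_0^x log |2 sin t| dt`. -/
noncomputable def Lob (x : ℝ) : ℝ := -∫ t in (0 : ℝ)..x, Real.log |2 * Real.sin t|

/-- The volume `8 Λ(π / 4) = 3.6638…` of the regular ideal octahedron. -/
noncomputable def octahedron : ℝ := 8 * Lob (Real.pi / 4)

/-! ### Checks of the definitions (not part of the result) -/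

/-- For `N = 2` the crossings satisfy the skein relation of the Jones polynomial. -/
theorem skein (v : ℂ) (hv : v ≠ 0) (h1 : br v 1 ≠ 0) :
    v ^ 2 • crossP 2 v - (v ^ 2)⁻¹ • crossN 2 v =
      (v - v⁻¹) • (1 : Matrix (Fin 2 × Fin 2) (Fin 2 × Fin 2) ℂ) :=
  Pool.Agent.H550R3.Jones.taskSanSkein v hv h1

/-- The two crossings are inverse to each other. -/
theorem cross_inverse (N : ℕ) (v : ℂ) (hv : v ≠ 0)
    (h : ∀ k : ℕ, 0 < k → k < N → br v k ≠ 0) :
    crossP N v * crossN N v = 1 ∧ crossN N v * crossP N v = 1 :=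
  Pool.Agent.H309R4.Jones.SanI.taskSanInv Pool.Agent.H345J.taskMod Pool.Agent.H345J.taskInv
    Pool.Agent.H559R3.J.taskCross N v ⟨hv, h⟩

/-- The Yang-Baxter equation, for every colour. -/
theorem yang_baxter (N : ℕ) (v : ℂ) (hv : v ≠ 0) (h : ∀ k : ℕ, 0 < k → k < N → br v k ≠ 0) :
    gen (crossP N v) 3 0 * gen (crossP N v) 3 1 * gen (crossP N v) 3 0 =
      gen (crossP N v) 3 1 * gen (crossP N v) 3 0 * gen (crossP N v) 3 1 :=
  Pool.Agent.H927R2.J.SanYB.taskSanYB Pool.Agent.H345J.taskMod Pool.Agent.H345J.taskInt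
    Pool.Agent.H345J.taskInv Pool.Agent.H667J.taskHex1 Pool.Agent.H22R3.J.taskNat
    Pool.Agent.H559R3.J.taskCross N v ⟨hv, h⟩

/-- Curls may be removed: the framing is normalised. -/
theorem curl (N : ℕ) (v : ℂ) (hv : v ≠ 0) (h : ∀ k : ℕ, 0 < k → k < N → br v k ≠ 0) :
    (fun i j => ∑ x : Fin N, v ^ ((N : ℤ) - 1 - 2 * (x : ℕ)) * crossP N v (i, x) (j, x)) =
      (1 : Matrix (Fin N) (Fin N) ℂ) ∧
    (fun i j => ∑ x : Fin N, v ^ ((N : ℤ) - 1 - 2 * (x : ℕ)) * crossN N v (i, x) (j, x)) =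
      (1 : Matrix (Fin N) (Fin N) ℂ) :=
  Pool.Agent.H105R3.JSan.taskSanCurl N v ⟨hv, h⟩

/-- The unknot has the value `1`. -/
theorem unknot (N : ℕ) (v : ℂ) (hN : 0 < N) (hv : v ≠ 0)
    (h : ∀ k : ℕ, 0 < k → k < N → br v k ≠ 0) :
    cjones N 0 [] v = 1 ∧ cjones N 1 [(0, true)] v = 1 ∧ cjones N 1 [(0, false)] v = 1 :=
  Pool.Agent.H309R4.Jones.SanU.taskSanUnknot N v hN ⟨hv, h⟩

/-! ### Bridges -/

lemma cjones_eq (N n : ℕ) (w : List (ℕ × Bool)) (v : ℂ) :
    cjones N n w v = Pool.Agent.H550R3.Jones.cjones N n w v := rfl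

lemma full_eq (p : ℤ) : fullTwists p = (Pool.Agent.Y481.fts p).map fun g => (g.1 + 1, g.2) := by
  unfold fullTwists Pool.Agent.Y481.fts
  rw [List.map_flatten, List.map_replicate]
  by_cases hp : 0 ≤ p
  · simp [hp, Pool.Agent.Y481.ftw]
  · simp [hp, Pool.Agent.Y481.ftwi]

lemma link_eq (p : ℤ) (l : List (ℤ × ℤ)) : linkWord p l =
    Pool.Agent.W715.VC.axisClosure (Pool.Agent.Y481.fts p ++ Pool.Agent.Y481.word l) := by
  unfold linkWord Pool.Agent.W715.VC.axisClosure Pool.Agent.Y481.word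
  rw [List.map_append, ← full_eq, List.append_assoc]
  congr 2
  rw [List.map_flatten, List.map_map]
  congr 2
  funext p
  simp only [Function.comp, List.map_append, Pool.Agent.Y481.letters, List.map_replicate, twist]

lemma kashaev_norm {N : ℕ} (hN : 0 < N) (p : ℤ) (l : List (ℤ × ℤ)) : ‖kashaev p l N‖ =
    ‖(Pool.Agent.W715.VC.rep3 N (Pool.Agent.Y481.fts p ++ Pool.Agent.Y481.word l)).trace‖ := by
  unfold kashaev
  rw [cjones_eq, link_eq]
  exact Pool.Agent.W715.VC.norm_cjones_axis hN _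

lemma oct_eq : octahedron = Pool.Agent.TH563.UB.v8 := rfl

/-- **An optimal upper bound for closed 3-braids with their axes.**
Let `L` be the link which consists of the closure of the 3-braid
`(s_1 s_2)^{3 p} s_1^{a_1} s_2^{b_1} ⋯ s_1^{a_k} s_2^{b_k}` and of its braid axis.
(1) For all integers `a_i`, `b_i` and `p`, the upper limit of `2 π log |⟨L⟩_N| / N` is at most
`4 k v_8`, `v_8` the volume of the regular ideal octahedron: two octahedra for each of the `2 k`
twist regions.  (The complement of `L` with crossing circles added at all the twist regions is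
hyperbolic of volume `4 k v_8`.)
(2) This is optimal: for every `ε > 0` there is `M` such that, if all `|a_i|` and `|b_i|` are at least
`M`, then `2 π log |⟨L⟩_N| / N` has a limit `V` (for all `k` and `p`), and `V ≥ k (4 v_8 - ε)`. -/
theorem result :
    (∀ (p : ℤ) (l : List (ℤ × ℤ)), l ≠ [] → ∀ ε : ℝ, 0 < ε → ∀ᶠ N : ℕ in atTop,
      ‖kashaev p l N‖ ≤ Real.exp ((4 * octahedron * l.length / (2 * Real.pi) + ε) * N)) ∧
    ∀ ε : ℝ, 0 < ε → ∃ M : ℕ, ∀ (p : ℤ) (l : List (ℤ × ℤ)), l ≠ [] →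
      (∀ q ∈ l, (M : ℤ) ≤ |q.1| ∧ (M : ℤ) ≤ |q.2|) →
      ∃ V : ℝ, (4 * octahedron - ε) * l.length ≤ V ∧ V ≤ 4 * octahedron * l.length ∧
        Tendsto (fun N : ℕ => 2 * Real.pi * (Real.log ‖kashaev p l N‖ / N)) atTop (𝓝 V) := by
  constructor
  · intro p l hl ε hε
    filter_upwards [Pool.Agent.Y481.ubA p l hl hε, eventually_gt_atTop 0] with N h1 hN
    rw [kashaev_norm hN]
    refine h1.trans (le_of_eq ?_)
    congr 1
    have h2 := Pool.Agent.TH563.UB.bet_v8
    have h3 : 4 * octahedron * (l.length : ℝ) / (2 * Real.pi) =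
        4 * Pool.Agent.W711.HT.bet * l.length := by
      rw [oct_eq, div_eq_iff (by positivity)]
      linear_combination (-2 * (l.length : ℝ)) * h2
    rw [h3]
    ring
  · intro ε hε
    obtain ⟨M, hM⟩ := Pool.Agent.Y481.optA hε
    refine ⟨⌈M⌉₊, fun p l hl hlM => ?_⟩
    have hc : ∀ x : ℤ, (⌈M⌉₊ : ℤ) ≤ |x| → M ≤ |(x : ℝ)| := by
      intro x hx
      have h1 : ((⌈M⌉₊ : ℤ) : ℝ) ≤ ((|x| : ℤ) : ℝ) := by exact_mod_cast hx
      rw [Int.cast_abs] at h1
      have h2 := Nat.le_ceil M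
      have h3 : ((⌈M⌉₊ : ℤ) : ℝ) = (⌈M⌉₊ : ℝ) := by push_cast; rfl
      linarith
    obtain ⟨V, -, h1, h2, h3⟩ := hM p l hl fun q hq => ⟨hc _ (hlM q hq).1, hc _ (hlM q hq).2⟩
    refine ⟨V, ?_, ?_, ?_⟩
    · rw [oct_eq]
      exact h1
    · rw [oct_eq]
      exact h2
    · refine h3.congr' ?_
      filter_upwards [eventually_gt_atTop 0] with N hN
      rw [kashaev_norm hN]

end Pool.Agent.Y481.Arc.ThreeBraidAxisBound
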